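import Pool.Agent.J6H5.CCLS.LS

/-!
# MP_bd8d3e_al: countably categorical alternative nilrings are solvable up to 3-torsion

Let `A` be an alternative nilring whose complete theory is countably categorical (`A` itself may be
uncountable), or whose automorphism group has finitely many orbits on quadruples. Then some derived
power `A^(k)` is killed by a power of `3`. In particular `A` is solvable if it has no element of
additive order `3`.
-/

namespace Pool.Agent.Results.MP_bd8d3e_al.AlternativeNilRings

open Pool.Agent.J6H59.CC

theorem solvable_of_kill {A : Type} [NonUnitalNonAssocRing A] {k e : ℕ}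
    (h : ∀ a ∈ Derived A k, 3 ^ e • a = 0) (h3 : ∀ a : A, 3 • a = 0 → a = 0) : Solvable A := by
  refine ⟨k, ?_⟩
  rw [eq_bot_iff]
  intro a ha
  rw [AddSubgroup.mem_bot]
  have h1 := h a ha
  clear h
  induction e with
  | zero => simpa using h1
  | succ e ih =>
    apply ih
    apply h3
    rw [pow_succ', mul_nsmul'] at h1
    exact h1

theorem result (A : Type) [NonUnitalNonAssocRing A]
    (hA : CountablyCategorical A ∨ Olig A) (hAlt : Alternative A) (hNil : NilRing A) :
    (∃ k e : ℕ, ∀ a ∈ Derived A k, 3 ^ e • a = 0) ∧
      ((∀ a : A, 3 • a = 0 → a = 0) → Solvable A) := by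
  have h : ∃ k e : ℕ, ∀ a ∈ Derived A k, 3 ^ e • a = 0 := by
    rcases hA with h | h
    · exact Pool.Agent.J6H5.CCLS.main A h hAlt hNil
    · exact main h hAlt hNil
  refine ⟨h, fun h3 => ?_⟩
  obtain ⟨k, e, hk⟩ := h
  exact solvable_of_kill hk h3

end Pool.Agent.Results.MP_bd8d3e_al.AlternativeNilRings
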