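import Pool.Agent.J6H59.CC.Model

/-!
# MP_bd8d3e_al: countably categorical rings that coincide with their lower nil radical are solvable

Let `A` be a (not necessarily associative) ring which is countable and countably categorical, or
whose automorphism group has finitely many orbits on quadruples. If for every two-sided ideal
`K ≠ A` invariant under the automorphisms of `A` there is a two-sided ideal `I` not contained in `K`
with `I * I ⊆ K`, then `A` is solvable. For alternative rings the converse holds as well.
-/

namespace Pool.Agent.Results.MP_bd8d3e_al.RadicalRings

open Pool.Agent.J6H59.CC

theorem result (A : Type) [NonUnitalNonAssocRing A]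
    (hA : (Countable A ∧ CountablyCategorical A) ∨ Olig A) :
    (Rad A → Solvable A) ∧ (Alternative A → (Solvable A ↔ Rad A)) := by
  have hO : Olig A := by
    rcases hA with ⟨h1, h2⟩ | h
    · exact olig_of_categorical A h2
    · exact h
  exact ⟨solvable hO, fun h => ⟨h.rad, solvable hO⟩⟩

end Pool.Agent.Results.MP_bd8d3e_al.RadicalRings
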